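import Pool.Agent.H69.TRI.StmtsP

/-! Project TRI, block A, module FRAME. -/

set_option autoImplicit false
set_option linter.unusedVariables false

open MeasureTheory Set Filter Topology InnerProductSpace Metric
open scoped Real ComplexConjugate ContDiff Laplacian Pointwise

namespace Pool.TRI.A

private theorem frame_open {T : Set ℂ} (B : Bary T) : IsOpen T := by
  have h : T = ⋂ k, {z | 0 < (z * (starRingEnd ℂ) (B.g k)).re + B.b k} := by
    ext z
    rw [B.mem_iff]
    simp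
  rw [h]
  apply isOpen_iInter_of_finite
  intro k
  exact isOpen_lt continuous_const (by fun_prop)

private theorem frame_aux {T : Set ℂ} (B : Bary T) (u : ℂ → ℝ) (hu : IsExit T u) (β κ : ℂ)
    (hβ : ‖β‖ < 1) (hκ : κ ≠ 0) (A : ℂ ≃ₜ ℂ) (hA : ContDiff ℝ 2 A)
    (hL : ∀ z, ContDiffAt ℝ 2 u (A z) → (Δ fun w => u (A w)) z = ‖κ‖ ^ 2 * (Δ u) (A z))
    (hx : ∀ k ζ, B.x k (A ζ) = X k (aff β ζ) / 3)
    (hc : ∀ k : Fin 3, B.c k * ‖κ‖ ^ 2 = (1 + ‖β‖ ^ 2 - 4 * (om ^ (k : ℕ) * β).re) / 18) :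
    ∃ (β : ℂ) (v : ℂ → ℝ) (m : ℝ), ‖β‖ < 1 ∧ IsExit (Tb β) v ∧ 0 < m ∧
      (∀ k : Fin 3, B.c k * m = (1 + ‖β‖ ^ 2 - 4 * (om ^ (k : ℕ) * β).re) / 18) ∧
      sSup (u '' T) = m * sSup (v '' Tb β) := by
  have hm : 0 < ‖κ‖ ^ 2 := by
    have := norm_pos_iff.2 hκ
    positivity
  have hT := frame_open B
  have hpre : Tb β = A ⁻¹' T := by
    ext ζ
    rw [Set.mem_preimage, B.mem_iff]
    show (∀ k, 0 < X k (aff β ζ)) ↔ _
    refine forall_congr' fun k => ?_
    have := hx k ζ
    unfold Bary.x at this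
    rw [this]
    constructor
    · intro h
      linarith
    · intro h
      linarith
  set m : ℝ := ‖κ‖ ^ 2 with hmd
  refine ⟨β, fun ζ => u (A ζ) / m, m, hβ, ⟨?_, ?_, ?_, ?_⟩, hm, hc, ?_⟩
  · rw [hpre, ← A.preimage_closure]
    exact (hu.cont.comp A.continuous.continuousOn (fun _ h => h)).div_const m
  · rw [hpre]
    exact (hu.smooth.comp hA.contDiffOn (fun _ h => h)).div_const m
  · intro ζ hζ
    rw [hpre] at hζ
    have h1 : ContDiffAt ℝ 2 u (A ζ) := hu.smooth.contDiffAt (hT.mem_nhds hζ)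
    have h2 : ContDiffAt ℝ 2 (fun w => u (A w)) ζ := h1.comp ζ hA.contDiffAt
    have h3 : (fun ζ => u (A ζ) / m) = m⁻¹ • (fun w => u (A w)) := by
      funext w
      simp only [Pi.smul_apply, smul_eq_mul]
      rw [div_eq_inv_mul]
    rw [h3, laplacian_smul _ h2, hL ζ h1, smul_eq_mul]
    have h4 := hu.pde (A ζ) hζ
    rw [← h4]
    field_simp
  · intro ζ hζ
    rw [hpre, ← A.preimage_frontier] at hζ
    rw [hu.bdry (A ζ) hζ]
    simp
  · have h1 : u '' T = m • ((fun ζ => u (A ζ) / m) '' Tb β) := by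
      ext y
      rw [Set.mem_smul_set]
      constructor
      · rintro ⟨z, hz, rfl⟩
        refine ⟨u z / m, ⟨A.symm z, ?_, ?_⟩, ?_⟩
        · rw [hpre]
          simpa using hz
        · simp
        · rw [smul_eq_mul]
          field_simp
      · rintro ⟨_, ⟨ζ, hζ, rfl⟩, rfl⟩
        rw [hpre] at hζ
        refine ⟨A ζ, hζ, ?_⟩
        simp only [smul_eq_mul]
        field_simp
    rw [h1, Real.sSup_smul_of_nonneg hm.le, smul_eq_mul]

/-- the point with prescribed coordinates -/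
private theorem frame_z0 {T : Set ℂ} (B : Bary T) : ∃ z₀ : ℂ, ∀ k, B.x k z₀ = 1 / 3 := by
  have hD : (B.g 1).im * (B.g 0).re - (B.g 1).re * (B.g 0).im ≠ 0 := by
    intro h
    apply B.indep
    simp
    linarith
  set D := (B.g 1).im * (B.g 0).re - (B.g 1).re * (B.g 0).im with hDd
  set a0 := 1 / 3 - B.b 0 with ha0
  set a1 := 1 / 3 - B.b 1 with ha1
  set z₀ : ℂ := ⟨(a0 * (B.g 1).im - a1 * (B.g 0).im) / D, (a1 * (B.g 0).re - a0 * (B.g 1).re) / D⟩
    with hz₀
  have h0 : B.x 0 z₀ = 1 / 3 := by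
    have : (z₀ * (starRingEnd ℂ) (B.g 0)).re = a0 := by
      simp only [Complex.mul_re, Complex.conj_re, Complex.conj_im, hz₀]
      field_simp
      rw [hDd]
      ring
    unfold Bary.x
    rw [this, ha0]
    ring
  have h1 : B.x 1 z₀ = 1 / 3 := by
    have : (z₀ * (starRingEnd ℂ) (B.g 1)).re = a1 := by
      simp only [Complex.mul_re, Complex.conj_re, Complex.conj_im, hz₀]
      field_simp
      rw [hDd]
      ring
    unfold Bary.x
    rw [this, ha1]
    ring
  have hs : B.x 0 z₀ + B.x 1 z₀ + B.x 2 z₀ = 1 := by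
    have h2 := B.sum_g
    have h3 := B.sum_b
    have h4 : B.g 2 = - B.g 0 - B.g 1 := by linear_combination h2
    unfold Bary.x
    rw [h4]
    simp
    linarith
  refine ⟨z₀, fun k => ?_⟩
  fin_cases k
  · exact h0
  · exact h1
  · show B.x 2 z₀ = 1 / 3
    linarith

theorem frame (hG : Geo1Stmt) (hL : LapSimStmt) (hTop : TopTbStmt) : FrameStmt := by
  obtain ⟨h3, h1, hcj, hn, -⟩ := hG
  intro T B u hu
  have hg2 : B.g 2 = - B.g 0 - B.g 1 := by linear_combination B.sum_g
  obtain ⟨P, hP⟩ : ∃ P : ℂ, P = (B.g 0 + B.g 1 * om ^ 2 + B.g 2 * om) / 3 := ⟨_, rfl⟩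
  obtain ⟨Q, hQ⟩ : ∃ Q : ℂ, Q = (B.g 0 + B.g 1 * om + B.g 2 * om ^ 2) / 3 := ⟨_, rfl⟩
  have e0 : B.g 0 = P + Q := by
    rw [hP, hQ, hg2]
    linear_combination (B.g 0 / 3) * h1
  have e1 : B.g 1 = P * om + Q * om ^ 2 := by
    rw [hP, hQ, hg2]
    linear_combination (-(2 * B.g 1 - (B.g 0 + B.g 1) * om) / 3) * h3 + (B.g 1 / 3) * h1
  have e2 : B.g 2 = P * om ^ 2 + Q * om := by
    rw [hg2, e0, e1]
    linear_combination (-(P + Q)) * h1
  have hcj2 : conj (om ^ 2) = om := by
    rw [← hcj, Complex.conj_conj]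
  have c0 : conj (B.g 0) = conj P + conj Q := by rw [e0, map_add]
  have c1 : conj (B.g 1) = conj P * om ^ 2 + conj Q * om := by
    rw [e1, map_add, map_mul, map_mul, hcj, hcj2]
  have c2 : conj (B.g 2) = conj P * om + conj Q * om ^ 2 := by
    rw [e2, map_add, map_mul, map_mul, hcj, hcj2]
  -- general forms
  have hk : ∀ k : Fin 3, conj (B.g k) = conj P * (conj om) ^ (k : ℕ) + conj Q * om ^ (k : ℕ) := by
    intro k
    fin_cases k
    · simpa using c0
    · show conj (B.g 1) = conj P * (conj om) ^ 1 + conj Q * om ^ 1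
      rw [c1, hcj]
      ring
    · show conj (B.g 2) = conj P * (conj om) ^ 2 + conj Q * om ^ 2
      rw [c2, hcj]
      linear_combination (-conj P * om) * h3
  have hom : om.re = -1 / 2 := rfl
  have hom2 : (om ^ 2).re = -1 / 2 := by rw [← hcj, Complex.conj_re, hom]
  have hPP : P * conj P = ((‖P‖ ^ 2 : ℝ) : ℂ) := by
    rw [Complex.mul_conj, Complex.normSq_eq_norm_sq]
  have hQQ : Q * conj Q = ((‖Q‖ ^ 2 : ℝ) : ℂ) := by
    rw [Complex.mul_conj, Complex.normSq_eq_norm_sq]
  have hre : ∀ (r : ℝ) (z : ℂ), ((r : ℂ) * z).re = r * z.re := by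
    intro r z
    simp
  have hck : ∀ k : Fin 3, B.c k = (‖P‖ ^ 2 + ‖Q‖ ^ 2) / 2 - 2 * (om ^ (k : ℕ) * (conj P * Q)).re := by
    intro k
    have key : ∀ z w : ℂ, z * conj w = P * conj P * om ^ 2 + Q * conj Q * om
        + (om ^ (k : ℕ) * (conj P * Q) + conj (om ^ (k : ℕ) * (conj P * Q))) →
        -(z * conj w).re = (‖P‖ ^ 2 + ‖Q‖ ^ 2) / 2 - 2 * (om ^ (k : ℕ) * (conj P * Q)).re := by
      intro z w h
      rw [h, hPP, hQQ]
      simp only [Complex.add_re, hre, hom, hom2, Complex.conj_re]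
      ring
    fin_cases k
    · show -(B.g 1 * conj (B.g 2)).re = _
      apply key
      rw [c2, e1]
      show _ = _ + (om ^ 0 * (conj P * Q) + conj (om ^ 0 * (conj P * Q)))
      simp only [pow_zero, one_mul, map_mul, Complex.conj_conj]
      linear_combination (P * conj Q + Q * conj P + Q * conj Q * om) * h3
    · show -(B.g 2 * conj (B.g 0)).re = _
      apply key
      rw [c0, e2]
      show _ = _ + (om ^ 1 * (conj P * Q) + conj (om ^ 1 * (conj P * Q)))
      simp only [pow_one, map_mul, Complex.conj_conj, hcj]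
      ring
    · show -(B.g 0 * conj (B.g 1)).re = _
      apply key
      rw [c1, e0]
      show _ = _ + (om ^ 2 * (conj P * Q) + conj (om ^ 2 * (conj P * Q)))
      rw [map_mul, hcj2]
      simp only [map_mul, Complex.conj_conj]
      ring
  have hPQ : ‖P‖ ≠ ‖Q‖ := by
    intro h
    apply B.indep
    rw [← Complex.conj_eq_iff_im, map_mul, Complex.conj_conj, c0]
    rw [c1, e0, e1]
    have h4 : P * conj P = Q * conj Q := by rw [hPP, hQQ, h]
    linear_combination (om - om ^ 2) * h4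
  obtain ⟨z₀, hz₀⟩ := frame_z0 B
  have hxk : ∀ k w, B.x k (z₀ + w) = 1 / 3 + (w * conj (B.g k)).re := by
    intro k w
    rw [← hz₀ k]
    unfold Bary.x
    rw [add_mul, Complex.add_re]
    ring
  have hX : ∀ k (β ζ : ℂ), X k (aff β ζ) = 1 + (ζ * (conj om) ^ (k : ℕ)).re
      + (conj β * ζ * om ^ (k : ℕ)).re := by
    intro k β ζ
    unfold X aff
    have h5 : (β * conj ζ * (conj om) ^ (k : ℕ)).re = (conj β * ζ * om ^ (k : ℕ)).re := by
      rw [← Complex.conj_re]
      simp only [map_mul, map_pow, Complex.conj_conj]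
    rw [add_mul, Complex.add_re, h5]
    ring
  rcases lt_or_gt_of_ne hPQ with hlt | hgt
  · -- the second case
    have hQ0 : Q ≠ 0 := by
      intro h
      rw [h, norm_zero] at hlt
      exact absurd hlt (not_lt.2 (norm_nonneg _))
    have hQc : conj Q ≠ 0 := (map_ne_zero _).2 hQ0
    have hQn : 0 < ‖Q‖ := norm_pos_iff.2 hQ0
    have hκ : (1 / (3 * conj Q) : ℂ) ≠ 0 := by
      apply div_ne_zero one_ne_zero
      exact mul_ne_zero (by norm_num) hQc
    have hβn : ‖conj P / conj Q‖ = ‖P‖ / ‖Q‖ := by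
      rw [norm_div, RCLike.norm_conj, RCLike.norm_conj]
    refine frame_aux B u hu (conj P / conj Q) (1 / (3 * conj Q)) ?_ hκ
      ((Complex.conjCLE.toHomeomorph.trans (Homeomorph.mulLeft₀ _ hκ)).trans (Homeomorph.addLeft z₀))
      ?_ ?_ ?_ ?_
    · rw [hβn, div_lt_one hQn]
      exact hlt
    · show ContDiff ℝ 2 (fun ζ => z₀ + 1 / (3 * conj Q) * Complex.conjCLE ζ)
      exact contDiff_const.add (contDiff_const.mul Complex.conjCLE.contDiff)
    · intro z hz
      exact hL.2 u (1 / (3 * conj Q)) z₀ z hz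
    · intro k ζ
      show B.x k (z₀ + 1 / (3 * conj Q) * conj ζ) = _
      rw [hxk, hX, hk]
      have h5 : 1 / (3 * conj Q) * conj ζ * (conj P * (conj om) ^ (k : ℕ) + conj Q * om ^ (k : ℕ)) =
          ((1 / 3 : ℝ) : ℂ) * (conj (conj (conj P / conj Q) * ζ * om ^ (k : ℕ))
            + conj (ζ * (conj om) ^ (k : ℕ))) := by
        simp only [map_mul, map_pow, Complex.conj_conj, map_div₀]
        push_cast
        field_simp
      rw [h5, hre, Complex.add_re, Complex.conj_re, Complex.conj_re]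
      ring
    · intro k
      rw [hck, hβn, norm_div, norm_mul, RCLike.norm_conj]
      have h5 : (om ^ (k : ℕ) * (conj P * Q)).re = ‖Q‖ ^ 2 * (om ^ (k : ℕ) * (conj P / conj Q)).re := by
        rw [← hre, ← hQQ]
        congr 1
        field_simp
      rw [h5]
      simp only [norm_one]
      have : ‖(3 : ℂ)‖ = 3 := by simp
      rw [this]
      field_simp
      ring
  · have hP0 : P ≠ 0 := by
      intro h
      rw [h, norm_zero] at hgt
      exact absurd hgt (not_lt.2 (norm_nonneg _))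
    have hPc : conj P ≠ 0 := (map_ne_zero _).2 hP0
    have hPn : 0 < ‖P‖ := norm_pos_iff.2 hP0
    have hκ : (1 / (3 * conj P) : ℂ) ≠ 0 := by
      apply div_ne_zero one_ne_zero
      exact mul_ne_zero (by norm_num) hPc
    refine frame_aux B u hu (Q / P) (1 / (3 * conj P)) ?_ hκ
      ((Homeomorph.mulLeft₀ _ hκ).trans (Homeomorph.addLeft z₀))
      ?_ ?_ ?_ ?_
    · rw [norm_div, div_lt_one hPn]
      exact hgt
    · show ContDiff ℝ 2 (fun ζ => z₀ + 1 / (3 * conj P) * ζ)
      exact contDiff_const.add (contDiff_const.mul contDiff_id)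
    · intro z hz
      exact hL.1 u (1 / (3 * conj P)) z₀ z hz
    · intro k ζ
      show B.x k (z₀ + 1 / (3 * conj P) * ζ) = _
      rw [hxk, hX, hk]
      have h5 : 1 / (3 * conj P) * ζ * (conj P * (conj om) ^ (k : ℕ) + conj Q * om ^ (k : ℕ)) =
          ((1 / 3 : ℝ) : ℂ) * (ζ * (conj om) ^ (k : ℕ) + conj (Q / P) * ζ * om ^ (k : ℕ)) := by
        rw [map_div₀]
        push_cast
        field_simp
      rw [h5, hre, Complex.add_re]
      ring
    · intro k
      rw [hck, norm_div, norm_div, norm_mul, RCLike.norm_conj]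
      have h5 : (om ^ (k : ℕ) * (conj P * Q)).re = ‖P‖ ^ 2 * (om ^ (k : ℕ) * (Q / P)).re := by
        rw [← hre, ← hPP]
        congr 1
        field_simp
      rw [h5]
      simp only [norm_one]
      have : ‖(3 : ℂ)‖ = 3 := by simp
      rw [this]
      field_simp
      ring

end Pool.TRI.A
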