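import Pool.Agent.H69.TRI.StmtsP

/-! Project TRI, block A, module JAC. -/

set_option autoImplicit false

open MeasureTheory Set Filter Topology InnerProductSpace Metric
open scoped Real ComplexConjugate ContDiff Laplacian

namespace Pool.TRI.A

/-- the norm of a functional on the plane -/
private theorem jac_norm (L : ℂ →L[ℝ] ℝ) : L 1 ^ 2 + L Complex.I ^ 2 ≤ ‖L‖ ^ 2 := by
  set z : ℂ := ⟨L 1, L Complex.I⟩ with hz
  have h1 : z = (L 1) • (1 : ℂ) + (L Complex.I) • Complex.I := by
    apply Complex.ext <;> simp [hz]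
  have h2 : L z = L 1 ^ 2 + L Complex.I ^ 2 := by
    rw [h1, map_add, map_smul, map_smul]
    simp only [smul_eq_mul]
    ring
  have h3 : ‖z‖ ^ 2 = L 1 ^ 2 + L Complex.I ^ 2 := by
    rw [Complex.sq_norm, Complex.normSq_apply]
    simp only [hz]
    ring
  have h4 : ‖L z‖ ≤ ‖L‖ * ‖z‖ := L.le_opNorm z
  rw [h2, ← h3, Real.norm_of_nonneg (by positivity)] at h4
  by_cases h5 : ‖z‖ = 0
  · rw [← h3, h5, zero_pow two_ne_zero]
    positivity
  · have h6 : 0 < ‖z‖ := lt_of_le_of_ne (norm_nonneg _) (Ne.symm h5)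
    have h7 : ‖z‖ ≤ ‖L‖ := by
      by_contra h8
      push Not at h8
      nlinarith
    rw [← h3]
    exact pow_le_pow_left₀ h6.le h7 2

set_option maxHeartbeats 1000000 in
theorem jac : JacStmt := by
  intro T φ l hT hφ hpos hΔ v hv
  obtain ⟨hv1, hv2, hv3, -⟩ := hv
  set G : ℂ → ℂ → ℝ := fun e z => v z ^ 2 / φ z * fderiv ℝ φ z e with hG
  have hφat : ∀ z ∈ T, ContDiffAt ℝ ∞ φ z := fun z hz => hφ.contDiffAt (hT.mem_nhds hz)
  have hout : ∀ z, z ∉ tsupport v → v =ᶠ[𝓝 z] 0 := fun z hz => notMem_tsupport_iff_eventuallyEq.1 hz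
  have hGout : ∀ e z, z ∉ tsupport v → G e =ᶠ[𝓝 z] 0 := by
    intro e z hz
    filter_upwards [hout z hz] with y hy
    simp only [hG]
    rw [hy]
    simp
  have hGC : ∀ e, ContDiff ℝ 1 (G e) := by
    intro e
    rw [contDiff_iff_contDiffAt]
    intro z
    by_cases hz : z ∈ tsupport v
    · have hzT := hv3 hz
      have h1 : ContDiffAt ℝ 1 (fun z => fderiv ℝ φ z e) z := by
        have h2 : ContDiffAt ℝ 1 (fderiv ℝ φ) z :=
          (hφat z hzT).fderiv_right (m := 1) (by norm_cast)
        exact h2.clm_apply contDiffAt_const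
      have h3 : ContDiffAt ℝ 1 (fun z => v z ^ 2) z := (hv1.contDiffAt.of_le (by norm_cast)).pow 2
      have h4 : ContDiffAt ℝ 1 φ z := (hφat z hzT).of_le (by norm_cast)
      have h5 : ContDiffAt ℝ 1 (fun z => v z ^ 2 / φ z) z := h3.div h4 (hpos z hzT).ne'
      exact h5.mul h1
    · exact (contDiffAt_const (c := (0 : ℝ))).congr_of_eventuallyEq (hGout e z hz)
  have hGc : ∀ e, HasCompactSupport (G e) := by
    intro e
    refine hv2.mono ?_
    intro z hz
    rw [Function.mem_support] at hz ⊢
    intro h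
    apply hz
    simp [hG, h]
  have hdc : ∀ e, Continuous fun z => fderiv ℝ (G e) z e := fun e =>
    ((hGC e).continuous_fderiv (by norm_num)).clm_apply continuous_const
  have hdcs : ∀ e, HasCompactSupport fun z => fderiv ℝ (G e) z e := by
    intro e
    refine ((hGc e).fderiv (𝕜 := ℝ)).mono ?_
    intro z hz
    rw [Function.mem_support] at hz ⊢
    intro h
    apply hz
    rw [h]
    simp
  have hint : ∀ e, ∫ z, fderiv ℝ (G e) z e = 0 := by
    intro e
    have h := integral_mul_fderiv_eq_neg_fderiv_mul_of_integrable (μ := (volume : Measure ℂ))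
      (f := fun _ : ℂ => (1 : ℝ)) (g := G e) (v := e)
      (by simp) (by
        simp only [one_mul]
        exact (hdc e).integrable_of_hasCompactSupport (hdcs e))
      (by
        simp only [one_mul]
        exact (hGC e).continuous.integrable_of_hasCompactSupport (hGc e))
      (fun _ _ => differentiableAt_const _)
      (fun z _ => (hGC e).differentiable (by norm_num) z)
    simpa using h
  have hpt : ∀ z, l * v z ^ 2 + (fderiv ℝ (G 1) z 1 + fderiv ℝ (G Complex.I) z Complex.I) ≤
      ‖fderiv ℝ v z‖ ^ 2 := by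
    intro z
    by_cases hz : z ∈ tsupport v
    · have hzT := hv3 hz
      have hφz := hpos z hzT
      -- derivative of G e
      have hder : ∀ e, fderiv ℝ (G e) z e =
          (2 * v z * fderiv ℝ v z e / φ z - v z ^ 2 * fderiv ℝ φ z e / φ z ^ 2) * fderiv ℝ φ z e
            + v z ^ 2 / φ z * iteratedFDeriv ℝ 2 φ z ![e, e] := by
        intro e
        have h1 : HasFDerivAt v (fderiv ℝ v z) z :=
          (hv1.differentiable (by norm_num) z).hasFDerivAt
        have h2 : HasFDerivAt φ (fderiv ℝ φ z) z :=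
          ((hφat z hzT).differentiableAt (by norm_num)).hasFDerivAt
        have h3 : HasFDerivAt (fderiv ℝ φ) (fderiv ℝ (fderiv ℝ φ) z) z := by
          have : ContDiffAt ℝ 1 (fderiv ℝ φ) z := (hφat z hzT).fderiv_right (m := 1) (by norm_cast)
          exact (this.differentiableAt (by norm_num)).hasFDerivAt
        have h4 : HasFDerivAt (fun y => fderiv ℝ φ y e)
            ((fderiv ℝ (fderiv ℝ φ) z).flip e) z := by
          have := h3.clm_apply (hasFDerivAt_const e z)
          simpa using this
        have h2' : HasFDerivAt (fun y => (φ y)⁻¹) ((-((φ z) ^ 2)⁻¹) • fderiv ℝ φ z) z :=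
          (hasDerivAt_inv hφz.ne').comp_hasFDerivAt z h2
        have h5 : HasFDerivAt (fun y => v y ^ 2 * (φ y)⁻¹ * fderiv ℝ φ y e) _ z :=
          ((h1.pow 2).mul h2').mul h4
        have hGe : G e = fun y => v y ^ 2 * (φ y)⁻¹ * fderiv ℝ φ y e := by
          funext y
          simp only [hG, div_eq_mul_inv]
        rw [hGe, h5.fderiv, iteratedFDeriv_two_apply]
        simp
        field_simp
        ring
      have hL : iteratedFDeriv ℝ 2 φ z ![1, 1] + iteratedFDeriv ℝ 2 φ z ![Complex.I, Complex.I] =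
          -l * φ z := by
        have h1 := hΔ z hzT
        rw [laplacian_eq_iteratedFDeriv_complexPlane] at h1
        exact h1
      rw [hder 1, hder Complex.I]
      refine le_trans ?_ (jac_norm (fderiv ℝ v z))
      set p := fderiv ℝ v z 1
      set q := fderiv ℝ v z Complex.I
      set a := fderiv ℝ φ z 1
      set b := fderiv ℝ φ z Complex.I
      set A := iteratedFDeriv ℝ 2 φ z ![1, 1]
      set B := iteratedFDeriv ℝ 2 φ z ![Complex.I, Complex.I]
      have hA : A = -l * φ z - B := by linarith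
      rw [hA]
      have h7 : l * v z ^ 2 + ((2 * v z * p / φ z - v z ^ 2 * a / φ z ^ 2) * a +
          v z ^ 2 / φ z * (-l * φ z - B) + ((2 * v z * q / φ z - v z ^ 2 * b / φ z ^ 2) * b +
          v z ^ 2 / φ z * B)) = p ^ 2 + q ^ 2 - (p - v z / φ z * a) ^ 2 -
            (q - v z / φ z * b) ^ 2 := by
        field_simp
        ring
      rw [h7]
      have h8 := sq_nonneg (p - v z / φ z * a)
      have h9 := sq_nonneg (q - v z / φ z * b)
      linarith
    · have h1 : ∀ e, fderiv ℝ (G e) z e = 0 := by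
        intro e
        rw [(hGout e z hz).fderiv_eq]
        simp
      have h2 : v z = 0 := image_eq_zero_of_notMem_tsupport hz
      rw [h1, h1, h2]
      simp
  have hv0 : Integrable fun z => v z ^ 2 := by
    refine (hv1.continuous.pow 2).integrable_of_hasCompactSupport ?_
    refine hv2.mono ?_
    intro z hz
    rw [Function.mem_support] at hz ⊢
    intro h
    apply hz
    change v z ^ 2 = 0
    rw [h]
    simp
  have hvd : Integrable fun z => ‖fderiv ℝ v z‖ ^ 2 := by
    refine ((hv1.continuous_fderiv (by norm_num)).norm.pow 2).integrable_of_hasCompactSupport ?_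
    refine (hv2.fderiv (𝕜 := ℝ)).mono ?_
    intro z hz
    rw [Function.mem_support] at hz ⊢
    intro h
    apply hz
    change ‖fderiv ℝ v z‖ ^ 2 = 0
    rw [h]
    simp
  have hI : ∀ e, Integrable fun z => fderiv ℝ (G e) z e := fun e =>
    (hdc e).integrable_of_hasCompactSupport (hdcs e)
  have h1 : ∫ z, (l * v z ^ 2 + (fderiv ℝ (G 1) z 1 + fderiv ℝ (G Complex.I) z Complex.I)) ≤
      ∫ z, ‖fderiv ℝ v z‖ ^ 2 :=
    integral_mono ((hv0.const_mul l).add ((hI 1).add (hI Complex.I))) hvd hpt
  have hsum : Integrable fun z => fderiv ℝ (G 1) z 1 + fderiv ℝ (G Complex.I) z Complex.I :=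
    (hI 1).add (hI Complex.I)
  rw [integral_add (hv0.const_mul l) hsum,
    integral_add (hI 1) (hI Complex.I), hint, hint, integral_const_mul] at h1
  linarith

end Pool.TRI.A
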