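import Pool.Agent.H69.TRI.StmtsP

/-! Project TRI, block A, module LEV1. -/

set_option autoImplicit false
set_option linter.unusedVariables false

open MeasureTheory Set Filter Topology InnerProductSpace Metric
open scoped Real ComplexConjugate ContDiff Laplacian

namespace Pool.TRI.A

private theorem lev1_DD (k : Fin 3) (a b c d : ℝ) (l1 l2 l3 l4 : PX) :
    DD k (fun x => a * evx l1 x + b * evx l2 x + c * evx l3 x + d * evx l4 x) =
      fun x => a * evx (PX.dd k l1) x + b * evx (PX.dd k l2) x + c * evx (PX.dd k l3) x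
        + d * evx (PX.dd k l4) x := by
  funext x
  have h : ∀ l : PX, HasFDerivAt (evx l) (fderiv ℝ (evx l) x) x := fun l =>
    ((contDiff_evx (n := 1) l).differentiable (by norm_num) x).hasFDerivAt
  have h1 : HasFDerivAt (fun x => a * evx l1 x + b * evx l2 x + c * evx l3 x + d * evx l4 x)
      (a • fderiv ℝ (evx l1) x + b • fderiv ℝ (evx l2) x + c • fderiv ℝ (evx l3) x
        + d • fderiv ℝ (evx l4) x) x :=
    ((((h l1).const_mul a).add ((h l2).const_mul b)).add ((h l3).const_mul c)).add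
      ((h l4).const_mul d)
  rw [← DD_evx, ← DD_evx, ← DD_evx, ← DD_evx]
  unfold DD
  rw [h1.fderiv]
  simp

private theorem lev1_e3 (k : Fin 3) (x : Fin 3 → ℝ) :
    evx (PX.dd k (PX.dd k e3)) x = -2 * x k := by
  fin_cases k <;> simp [PX.dd, PX.pd, PX.scale, e3, evx, mon] <;> ring

/-- the comparison function of the first level -/
private noncomputable def FF (sg b1 b2 : ℝ) (x : Fin 3 → ℝ) : ℝ :=
  18 * evx e3 x + b1 / NN * evx lF1 x + b2 / NN * evx lF2 x + sg * (b1 + b2) / NN * evx lFB x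

private theorem lev1_NN : (0 : ℝ) < NN := by
  unfold NN
  norm_num

private theorem lev1_FF (sg b1 b2 : ℝ) (k : Fin 3) (x : Fin 3 → ℝ) :
    DD k (DD k (FF sg b1 b2)) x = -36 * x k + QQ sg b1 b2 k x / NN := by
  have h1 : FF sg b1 b2 = fun x => 18 * evx e3 x + b1 / NN * evx lF1 x + b2 / NN * evx lF2 x
    + sg * (b1 + b2) / NN * evx lFB x := rfl
  rw [h1, lev1_DD, lev1_DD]
  simp only [lev1_e3]
  unfold QQ
  ring

private theorem lev1_val (sg b1 b2 : ℝ) (x : Fin 3 → ℝ) :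
    FF sg b1 b2 x = 18 * (x 0 * x 1 * x 2) + 27 / 2 * (x 0 * x 1 * x 2) *
      (-b1 * (evx gX x / 10 ^ 8) + b2 * (evx (PX.rot gX) x / 10 ^ 8))
      + sg * (18 * (b1 + b2) / (4157 / 100)) * (27 * (x 0 * x 1 * x 2) * (evx bX x / 10 ^ 8)) := by
  have h1 : evx e3 x = x 0 * x 1 * x 2 := by
    simp [e3, evx, mon]
  unfold FF lF1 lF2 lFB NN
  rw [evx_scale, evx_scale, evx_scale, evx_mul, evx_mul, evx_mul, h1]
  push_cast
  ring

set_option maxHeartbeats 4000000 in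
theorem lev1 (hM : MaxPStmt) (hTop : TopTbStmt) (hBary : BaryTbStmt) (hLap : LapBStmt)
    (hLX : LXStmt) (hC : CertStmt) (hCB : CertBStmt) (hG : Geo1Stmt) : Lev1Stmt := by
  obtain ⟨h3, h1, hcj, hn, -⟩ := hG
  intro β v hN hv
  obtain ⟨hlt, ho1, ho2, hnr⟩ := hN
  obtain ⟨hopen, hbdd, hclos, hfr⟩ := hTop β hlt
  obtain ⟨B, hBx, hBc⟩ := hBary β hlt
  have hs3 : √3 * √3 = 3 := Real.mul_self_sqrt (by norm_num)
  -- coordinates
  have omre : om.re = -1 / 2 := rfl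
  have omim : om.im = √3 / 2 := rfl
  have om2re : (om ^ 2).re = -1 / 2 := by rw [← hcj, Complex.conj_re, omre]
  have om2im : (om ^ 2).im = -(√3 / 2) := by rw [← hcj, Complex.conj_im, omim]
  set p := β.re with hp
  set q := β.im with hq
  have r1 : (om * β).re = -p / 2 - √3 * q / 2 := by
    rw [Complex.mul_re, omre, omim]
    ring
  have r2 : (om ^ 2 * β).re = -p / 2 + √3 * q / 2 := by
    rw [Complex.mul_re, om2re, om2im]
    ring
  have hs2 : ‖β‖ ^ 2 = p ^ 2 + q ^ 2 := by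
    rw [Complex.sq_norm, Complex.normSq_apply]
    ring
  set t : ℝ := 1 + ‖β‖ ^ 2 with ht
  have ht1 : 1 ≤ t := by
    rw [ht]
    nlinarith [sq_nonneg ‖β‖]
  have ht0 : 0 < t := by linarith
  rw [r1] at ho1
  rw [r1, r2] at ho2
  rw [r2] at hnr
  obtain ⟨b1, hb1⟩ : ∃ b1 : ℝ, b1 = (-2 * p - 2 / 3 * (√3 * q)) / t := ⟨_, rfl⟩
  obtain ⟨b2, hb2⟩ : ∃ b2 : ℝ, b2 = 4 / 3 * (√3 * q) / t := ⟨_, rfl⟩
  have hb1t : b1 * t = -2 * p - 2 / 3 * (√3 * q) := by
    rw [hb1]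
    field_simp
  have hb2t : b2 * t = 4 / 3 * (√3 * q) := by
    rw [hb2]
    field_simp
  have hb10 : 0 ≤ b1 := by
    rw [hb1]
    apply div_nonneg _ ht0.le
    linarith
  have hb20 : 0 ≤ b2 := by
    rw [hb2]
    apply div_nonneg _ ht0.le
    linarith
  have hbs : b1 + b2 ≤ 201 / 100000 := by
    have h4 : (b1 + b2) * t ≤ 201 / 100000 * t := by
      have h5 : (2 * b1 + b2) * t = -4 * p := by linarith
      have h6 : 0 ≤ b2 * t := mul_nonneg hb20 ht0.le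
      nlinarith
    exact le_of_mul_le_mul_right h4 ht0
  -- size of b
  have hbn : 18 * (b1 + b2) / (4157 / 100) ≤ ‖β‖ := by
    have h4 : t ^ 2 * (b1 ^ 2 + b1 * b2 + b2 ^ 2) = 4 * ‖β‖ ^ 2 := by
      have h5 : t ^ 2 * (b1 ^ 2 + b1 * b2 + b2 ^ 2) =
          (b1 * t) ^ 2 + (b1 * t) * (b2 * t) + (b2 * t) ^ 2 := by ring
      rw [h5, hb1t, hb2t, hs2]
      linear_combination 4 / 3 * q ^ 2 * hs3
    have h5 : 3 / 4 * (b1 + b2) ^ 2 ≤ b1 ^ 2 + b1 * b2 + b2 ^ 2 := by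
      nlinarith [sq_nonneg (b1 - b2)]
    have h6 : b1 ^ 2 + b1 * b2 + b2 ^ 2 ≤ 4 * ‖β‖ ^ 2 := by
      rw [← h4]
      have h7 : 0 ≤ b1 ^ 2 + b1 * b2 + b2 ^ 2 := by positivity
      have h7' : (1 : ℝ) ≤ t ^ 2 := one_le_pow₀ ht1
      calc b1 ^ 2 + b1 * b2 + b2 ^ 2 = 1 * (b1 ^ 2 + b1 * b2 + b2 ^ 2) := by ring
        _ ≤ t ^ 2 * (b1 ^ 2 + b1 * b2 + b2 ^ 2) := mul_le_mul_of_nonneg_right h7' h7
    have h8 : (18 * (b1 + b2) / (4157 / 100)) ^ 2 ≤ ‖β‖ ^ 2 := by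
      have h9 : (18 * (b1 + b2) / (4157 / 100)) ^ 2 = (1800 / 4157) ^ 2 * (b1 + b2) ^ 2 := by ring
      rw [h9]
      have h10 : 0 ≤ (b1 + b2) ^ 2 := sq_nonneg _
      have h11 : ((1800 : ℝ) / 4157) ^ 2 * (b1 + b2) ^ 2 ≤ 3 / 16 * (b1 + b2) ^ 2 := by
        apply mul_le_mul_of_nonneg_right _ h10
        norm_num
      linarith
    exact (pow_le_pow_iff_left₀ (by positivity) (norm_nonneg β) (by norm_num)).1 h8
  have hβ' : β / ((t : ℝ) : ℂ) = (-(b1 : ℂ) + om * b2) / 2 := by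
    have h4 : ((t : ℝ) : ℂ) ≠ 0 := by exact_mod_cast ht0.ne'
    rw [div_eq_iff h4]
    apply Complex.ext
    · rw [Complex.mul_re]
      simp only [Complex.div_ofNat_re, Complex.add_re, Complex.neg_re, Complex.ofReal_re,
        Complex.mul_re, omre, omim, Complex.ofReal_im, Complex.div_ofNat_im]
      show p = _
      linarith
    · rw [Complex.mul_im]
      simp only [Complex.div_ofNat_re, Complex.add_re, Complex.neg_re, Complex.ofReal_re,
        Complex.mul_re, omre, omim, Complex.ofReal_im, Complex.div_ofNat_im, Complex.add_im,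
        Complex.neg_im, Complex.mul_im]
      show q = _
      linear_combination (-(√3) / 4) * hb2t - q / 3 * hs3
  -- the coefficients
  have hck : ∀ k : Fin 3, B.c k = t * (1 + dl b1 b2 k) / 18 := by
    intro k
    rw [hBc]
    fin_cases k
    · show (1 + ‖β‖ ^ 2 - 4 * (om ^ 0 * β).re) / 18 = t * (1 + (2 * b1 + b2)) / 18
      rw [pow_zero, one_mul]
      change (t - 4 * p) / 18 = _
      linarith
    · show (1 + ‖β‖ ^ 2 - 4 * (om ^ 1 * β).re) / 18 = t * (1 + (b2 - b1)) / 18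
      rw [pow_one, r1]
      change (t - 4 * (-p / 2 - √3 * q / 2)) / 18 = _
      linarith
    · show (1 + ‖β‖ ^ 2 - 4 * (om ^ 2 * β).re) / 18 = t * (1 + (-b1 - 2 * b2)) / 18
      rw [r2]
      change (t - 4 * (-p / 2 + √3 * q / 2)) / 18 = _
      linarith
  -- the coordinates
  have hsum : ∀ ζ, B.x 0 ζ + B.x 1 ζ + B.x 2 ζ = 1 := by
    intro ζ
    have := (hLX.2 (aff β ζ)).1
    rw [Fin.sum_univ_three] at this
    rw [hBx, hBx, hBx]
    exact this
  have hW : ∀ ζ, W (fun k => B.x k ζ) = aff β ζ := by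
    intro ζ
    have := (hLX.2 (aff β ζ)).2
    have h4 : (fun k => B.x k ζ) = fun k => X k (aff β ζ) / 3 := by
      funext k
      exact hBx k ζ
    rw [h4]
    exact this
  have hval : ∀ (sg : ℝ) (ζ : ℂ), FF sg b1 b2 (fun k => B.x k ζ) =
      pp β (aff β ζ) + sg * (18 * (b1 + b2) / (4157 / 100)) * Bm (aff β ζ) := by
    intro sg ζ
    obtain ⟨-, hE, hg1, hg2, hbb⟩ := hLX.1 (fun k => B.x k ζ) (hsum ζ)
    rw [hW] at hE hg1 hg2 hbb
    rw [lev1_val]
    unfold pp Bm F0 f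
    rw [show ((1 + ‖β‖ ^ 2 : ℝ) : ℂ) = ((t : ℝ) : ℂ) from rfl, hβ', hE, hbb, ← hg1, ← hg2]
    have h4 : ((-(b1 : ℂ) + om * b2) / 2 * (((27 * (B.x 0 ζ * B.x 1 ζ * B.x 2 ζ) : ℝ) : ℂ)
        * g (aff β ζ))).re = 27 / 2 * (B.x 0 ζ * B.x 1 ζ * B.x 2 ζ) *
          (-b1 * (g (aff β ζ)).re + b2 * (om * g (aff β ζ)).re) := by
      have h5 : (-(b1 : ℂ) + om * b2) / 2 * (((27 * (B.x 0 ζ * B.x 1 ζ * B.x 2 ζ) : ℝ) : ℂ)
        * g (aff β ζ)) = ((27 / 2 * (B.x 0 ζ * B.x 1 ζ * B.x 2 ζ) * -b1 : ℝ) : ℂ) * g (aff β ζ)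
          + ((27 / 2 * (B.x 0 ζ * B.x 1 ζ * B.x 2 ζ) * b2 : ℝ) : ℂ) * (om * g (aff β ζ)) := by
        push_cast
        ring
      rw [h5, Complex.add_re, Complex.re_ofReal_mul, Complex.re_ofReal_mul]
      ring
    rw [h4]
    ring
  have hFC : ∀ sg, ContDiff ℝ 2 (FF sg b1 b2) := by
    intro sg
    unfold FF
    have := fun l => contDiff_evx (n := 2) l
    exact (((contDiff_const.mul (this _)).add (contDiff_const.mul (this _))).add
      (contDiff_const.mul (this _))).add (contDiff_const.mul (this _))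
  have hxC : ContDiff ℝ 2 (fun ζ => (fun k => B.x k ζ)) := by
    rw [contDiff_pi]
    intro k
    unfold Bary.x
    have : ContDiff ℝ 2 fun ζ : ℂ => (ζ * (starRingEnd ℂ) (B.g k)).re :=
      Complex.reCLM.contDiff.comp (contDiff_id.mul contDiff_const)
    exact this.add contDiff_const
  have hcomp : ∀ sg, ContDiff ℝ 2 (fun ζ => FF sg b1 b2 (fun k => B.x k ζ)) := fun sg =>
    (hFC sg).comp hxC
  have hLapF : ∀ (sg : ℝ) (ζ : ℂ), (Δ fun ζ => FF sg b1 b2 (fun k => B.x k ζ)) ζ =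
      t / 18 * (-36 - 36 * ∑ k, dl b1 b2 k * B.x k ζ
        + (∑ k, (1 + dl b1 b2 k) * QQ sg b1 b2 k (fun i => B.x i ζ)) / NN) := by
    intro sg ζ
    rw [hLap (Tb β) B _ (hFC sg) ζ]
    simp only [lev1_FF, hck]
    rw [Fin.sum_univ_three, Fin.sum_univ_three, Fin.sum_univ_three]
    have h4 := hsum ζ
    have h5 : B.x 2 ζ = 1 - B.x 0 ζ - B.x 1 ζ := by linarith
    rw [h5]
    have h6 : NN ≠ 0 := lev1_NN.ne'
    field_simp
    ring
  have hzero : ∀ (sg : ℝ) (ζ : ℂ), (∃ k, X k (aff β ζ) = 0) →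
      FF sg b1 b2 (fun k => B.x k ζ) = 0 := by
    intro sg ζ hk
    rw [lev1_val]
    have h4 : B.x 0 ζ * B.x 1 ζ * B.x 2 ζ = 0 := by
      rw [hBx, hBx, hBx]
      obtain ⟨k, hk⟩ := hk
      fin_cases k
      · have : X 0 (aff β ζ) = 0 := hk
        rw [this]
        ring
      · have : X 1 (aff β ζ) = 0 := hk
        rw [this]
        ring
      · have : X 2 (aff β ζ) = 0 := hk
        rw [this]
        ring
    show 18 * (B.x 0 ζ * B.x 1 ζ * B.x 2 ζ) + 27 / 2 * (B.x 0 ζ * B.x 1 ζ * B.x 2 ζ) * _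
      + _ * (27 * (B.x 0 ζ * B.x 1 ζ * B.x 2 ζ) * _) = 0
    rw [h4]
    ring
  have hpos : ∀ ζ ∈ Tb β, ∀ k, 0 ≤ B.x k ζ := by
    intro ζ hζ k
    rw [hBx]
    have : 0 < X k (aff β ζ) := hζ k
    linarith
  have hvat : ∀ ζ ∈ Tb β, ContDiffAt ℝ 2 v ζ := fun ζ hζ => hv.smooth.contDiffAt (hopen.mem_nhds hζ)
  -- upper bound
  have hup : ∀ ζ ∈ closure (Tb β), t * v ζ ≤ FF 1 b1 b2 (fun k => B.x k ζ) := by
    have key := hM (Tb β) (fun ζ => t * v ζ - FF 1 b1 b2 (fun k => B.x k ζ)) hopen hbdd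
      ((continuousOn_const.mul hv.cont).sub (hcomp 1).continuous.continuousOn)
      ((contDiffOn_const.mul hv.smooth).sub (hcomp 1).contDiffOn) ?_ ?_
    · intro ζ hζ
      have := key ζ hζ
      linarith
    · intro ζ hζ
      have h4 : (fun ζ => t * v ζ - FF 1 b1 b2 (fun k => B.x k ζ)) =
          (t • v) - fun ζ => FF 1 b1 b2 (fun k => B.x k ζ) := rfl
      have h5 : ContDiffAt ℝ 2 (t • v) ζ := contDiffAt_const.smul (hvat ζ hζ)
      rw [h4, h5.laplacian_sub (hcomp 1).contDiffAt, laplacian_smul _ (hvat ζ hζ), hLapF,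
        smul_eq_mul]
      have h6 := hv.pde ζ hζ
      have h7 : (Δ v) ζ = -2 := by linarith
      rw [h7]
      have h8 := (hC (fun i => B.x i ζ) (hpos ζ hζ) (hsum ζ) b1 b2 hb10 hb20 hbs).1
      have h9 : (∑ k, (1 + dl b1 b2 k) * QQ 1 b1 b2 k (fun i => B.x i ζ)) / NN ≤
          36 * ∑ k, dl b1 b2 k * B.x k ζ := by
        rw [div_le_iff₀ lev1_NN]
        linarith
      have h10 : t / 18 * (-36 - 36 * ∑ k, dl b1 b2 k * B.x k ζ
        + (∑ k, (1 + dl b1 b2 k) * QQ 1 b1 b2 k (fun i => B.x i ζ)) / NN) ≤ t / 18 * (-36) := by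
        apply mul_le_mul_of_nonneg_left _ (by positivity)
        linarith
      linarith
    · intro ζ hζ
      have h4 := (hfr ζ).1 hζ
      show t * v ζ - FF 1 b1 b2 (fun k => B.x k ζ) ≤ 0
      rw [hv.bdry ζ hζ, hzero 1 ζ h4.2, mul_zero, sub_zero]
  have hlow : ∀ ζ ∈ closure (Tb β), FF (-1) b1 b2 (fun k => B.x k ζ) ≤ t * v ζ := by
    have key := hM (Tb β) (fun ζ => FF (-1) b1 b2 (fun k => B.x k ζ) - t * v ζ) hopen hbdd
      ((hcomp (-1)).continuous.continuousOn.sub (continuousOn_const.mul hv.cont))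
      ((hcomp (-1)).contDiffOn.sub (contDiffOn_const.mul hv.smooth)) ?_ ?_
    · intro ζ hζ
      have := key ζ hζ
      linarith
    · intro ζ hζ
      have h4 : (fun ζ => FF (-1) b1 b2 (fun k => B.x k ζ) - t * v ζ) =
          (fun ζ => FF (-1) b1 b2 (fun k => B.x k ζ)) - (t • v) := rfl
      have h5 : ContDiffAt ℝ 2 (t • v) ζ := contDiffAt_const.smul (hvat ζ hζ)
      rw [h4, (hcomp (-1)).contDiffAt.laplacian_sub h5, laplacian_smul _ (hvat ζ hζ), hLapF,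
        smul_eq_mul]
      have h6 := hv.pde ζ hζ
      have h7 : (Δ v) ζ = -2 := by linarith
      rw [h7]
      have h8 := (hC (fun i => B.x i ζ) (hpos ζ hζ) (hsum ζ) b1 b2 hb10 hb20 hbs).2
      have h9 : 36 * ∑ k, dl b1 b2 k * B.x k ζ ≤
          (∑ k, (1 + dl b1 b2 k) * QQ (-1) b1 b2 k (fun i => B.x i ζ)) / NN := by
        rw [le_div_iff₀ lev1_NN]
        linarith
      have h10 : t / 18 * (-36) ≤ t / 18 * (-36 - 36 * ∑ k, dl b1 b2 k * B.x k ζ
        + (∑ k, (1 + dl b1 b2 k) * QQ (-1) b1 b2 k (fun i => B.x i ζ)) / NN) := by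
        apply mul_le_mul_of_nonneg_left _ (by positivity)
        linarith
      linarith
    · intro ζ hζ
      have h4 := (hfr ζ).1 hζ
      show FF (-1) b1 b2 (fun k => B.x k ζ) - t * v ζ ≤ 0
      rw [hv.bdry ζ hζ, hzero (-1) ζ h4.2, mul_zero, sub_zero]
  intro ζ hζ
  have hζc : ζ ∈ closure (Tb β) := by
    rw [hclos]
    exact hζ
  have hu := hup ζ hζc
  have hl := hlow ζ hζc
  rw [hval] at hu hl
  have hxn : ∀ k, 0 ≤ B.x k ζ := by
    intro k
    rw [hBx]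
    have := hζ k
    linarith
  have hB0 : 0 ≤ Bm (aff β ζ) := by
    obtain ⟨-, hE, -, -, hbb⟩ := hLX.1 (fun k => B.x k ζ) (hsum ζ)
    rw [hW] at hE hbb
    unfold Bm
    rw [hE, hbb]
    have h4 := (hCB (fun k => B.x k ζ) hxn (hsum ζ)).1
    have h5 := hxn 0
    have h6 := hxn 1
    have h7 := hxn 2
    positivity
  have h5 : 18 * (b1 + b2) / (4157 / 100) * Bm (aff β ζ) ≤ ‖β‖ * Bm (aff β ζ) :=
    mul_le_mul_of_nonneg_right hbn hB0
  show |t * v ζ - pp β (aff β ζ)| ≤ ‖β‖ * Bm (aff β ζ)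
  rw [abs_le]
  constructor
  · linarith
  · linarith

end Pool.TRI.A
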