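import Pool.Agent.H69.TRI.StmtsP

/-! Project TRI, block A, module QF. -/

set_option autoImplicit false
set_option linter.unusedVariables false

open MeasureTheory Set Filter Topology InnerProductSpace Metric
open scoped Real ComplexConjugate ContDiff Laplacian

namespace Pool.TRI.A

private theorem qf_lin3 {F G H : (Fin 3 → ℝ) → ℝ} (hF : Continuous F) (hG : Continuous G)
    (hH : Continuous H) (a b c : ℝ) :
    KI (fun x => a * F x + b * G x + c * H x) = a * KI F + b * KI G + c * KI H := by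
  rw [KI_add (F := fun x => a * F x + b * G x) (G := fun x => c * H x) (by fun_prop) (by fun_prop),
    KI_add (F := fun x => a * F x) (G := fun x => b * G x) (by fun_prop) (by fun_prop),
    KI_smul, KI_smul, KI_smul]

private theorem qf_rot (k : Fin 3) (x : Fin 3 → ℝ) : psi (k + 1) x = psi k (fun i => x (i + 1)) := by
  unfold psi
  congr 1
  funext i
  show x (i + (k + 1)) = x (i + k + 1)
  rw [add_assoc]

private theorem qf_congr {F G : (Fin 3 → ℝ) → ℝ} (h : ∀ x, F x = G x) : KI F = KI G :=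
  congrArg KI (funext h)

private theorem qf_psi0 (x : Fin 3 → ℝ) : psi 0 x = psi0 x := by
  unfold psi
  congr 1
  funext i
  rw [add_zero]

/-- the derivative of a rotated function -/
private theorem qf_DD {F : (Fin 3 → ℝ) → ℝ} (hF : Differentiable ℝ F) (k : Fin 3) (x : Fin 3 → ℝ) :
    DD (k + 1) (fun y => F (fun i => y (i + 1))) x = DD k F (fun i => x (i + 1)) := by
  set R : (Fin 3 → ℝ) →L[ℝ] (Fin 3 → ℝ) :=
    ContinuousLinearMap.pi (fun i => ContinuousLinearMap.proj (R := ℝ) (φ := fun _ => ℝ) (i + 1)) with hR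
  have hR1 : ∀ y, R y = fun i => y (i + 1) := by
    intro y
    funext i
    simp [hR]
  have h1 : (fun y : Fin 3 → ℝ => F (fun i => y (i + 1))) = fun y => F (R y) := by
    funext y
    rw [hR1]
  unfold DD
  have h2 : HasFDerivAt (fun y => F (R y)) ((fderiv ℝ F (R x)).comp R) x :=
    (hF (R x)).hasFDerivAt.comp x R.hasFDerivAt
  rw [h1, h2.fderiv, ContinuousLinearMap.comp_apply, hR1 x]
  congr 1
  rw [hR1]
  funext i
  simp only [Pi.sub_apply]
  fin_cases k <;> fin_cases i <;> simp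

theorem qf (hP : PermStmt) (h1 : Psi1Stmt) (h2 : Psi2Stmt) : QFStmt := by
  obtain ⟨hsm, hvb, hsum, -⟩ := h1
  obtain ⟨hq, hE⟩ := h2
  have hc : ∀ m, Continuous (psi m) := fun m => (hsm m).continuous
  have hd : ∀ m, Differentiable ℝ (psi m) := fun m => (hsm m).differentiable (by norm_num)
  have hDc : ∀ k m, Continuous (DD k (psi m)) := by
    intro k m
    unfold DD
    exact ((hsm m).continuous_fderiv (by norm_num)).clm_apply continuous_const
  have hphi : Continuous phi0 := by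
    unfold phi0
    fun_prop
  have hrot : ∀ F : (Fin 3 → ℝ) → ℝ, Continuous F → KI (fun x => F (fun i => x (i + 1))) = KI F :=
    fun F hF => (hP F hF).1
  have hpsi1 : ∀ x, psi 1 x = psi 0 (fun i => x (i + 1)) := fun x => qf_rot 0 x
  have hpsi2 : ∀ x, psi 2 x = psi 1 (fun i => x (i + 1)) := fun x => qf_rot 1 x
  have hpsi3 : ∀ x, psi 0 x = psi 2 (fun i => x (i + 1)) := fun x => qf_rot 2 x
  intro δ hδ
  have hδ2 : δ 2 = - δ 0 - δ 1 := by linarith
  -- squares
  have q0 : KI (fun x => psi 0 x ^ 2) = 15166161 / 1121120000 := by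
    rw [← hq]
    exact qf_congr fun x => by rw [qf_psi0]
  have q1 : KI (fun x => psi 1 x ^ 2) = 15166161 / 1121120000 := by
    rw [← q0, ← hrot (fun x => psi 0 x ^ 2) ((hc 0).pow 2)]
    exact qf_congr fun x => by rw [hpsi1]
  have q2 : KI (fun x => psi 2 x ^ 2) = 15166161 / 1121120000 := by
    rw [← q1, ← hrot (fun x => psi 1 x ^ 2) ((hc 1).pow 2)]
    exact qf_congr fun x => by rw [hpsi2]
  -- linearity of DD
  have hDD : ∀ (k : Fin 3) (e : Fin 3 → ℝ) (x : Fin 3 → ℝ),
      DD k (fun y => ∑ m, e m * psi m y) x =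
        e 0 * DD k (psi 0) x + e 1 * DD k (psi 1) x + e 2 * DD k (psi 2) x := by
    intro k e x
    have h3 : (fun y => ∑ m, e m * psi m y) =
        fun y => e 0 * psi 0 y + e 1 * psi 1 y + e 2 * psi 2 y := by
      funext y
      rw [Fin.sum_univ_three]
    have hh : ∀ m, HasFDerivAt (psi m) (fderiv ℝ (psi m) x) x := fun m => (hd m x).hasFDerivAt
    have h4 : HasFDerivAt (fun y => e 0 * psi 0 y + e 1 * psi 1 y + e 2 * psi 2 y)
        (e 0 • fderiv ℝ (psi 0) x + e 1 • fderiv ℝ (psi 1) x + e 2 • fderiv ℝ (psi 2) x) x :=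
      (((hh 0).const_mul (e 0)).add ((hh 1).const_mul (e 1))).add ((hh 2).const_mul (e 2))
    unfold DD
    rw [h3, h4.fderiv]
    simp
  have hDz : ∀ (k : Fin 3) (x : Fin 3 → ℝ),
      DD k (psi 0) x + DD k (psi 1) x + DD k (psi 2) x = 0 := by
    intro k x
    have h3 := hDD k (fun _ => 1) x
    have h4 : (fun y => ∑ m : Fin 3, (1 : ℝ) * psi m y) = fun _ => 0 := by
      funext y
      rw [Fin.sum_univ_three]
      simp only [one_mul]
      exact hsum y
    have h5 : DD k (fun _ => (0 : ℝ)) x = 0 := by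
      unfold DD
      simp
    rw [h4, h5] at h3
    linarith
  have hE0 : ∑ k, KI (fun x => DD k (psi 0) x ^ 2) = 297947781 / 112112000 := by
    rw [← hE, Fin.sum_univ_three]
    have h3 : psi 0 = psi0 := by
      funext x
      exact qf_psi0 x
    have h5 : ∀ k, Continuous (DD k psi0) := by
      intro k
      rw [← h3]
      exact hDc k 0
    rw [h3, KI_add (F := fun x => DD 0 psi0 x ^ 2 + DD 1 psi0 x ^ 2) (G := fun x => DD 2 psi0 x ^ 2)
        (((h5 0).pow 2).add ((h5 1).pow 2)) ((h5 2).pow 2),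
      KI_add (F := fun x => DD 0 psi0 x ^ 2) (G := fun x => DD 1 psi0 x ^ 2)
        ((h5 0).pow 2) ((h5 1).pow 2)]
  have hErot : ∀ m n : Fin 3, (∀ x, psi n x = psi m (fun i => x (i + 1))) →
      ∑ k, KI (fun x => DD k (psi n) x ^ 2) = ∑ k, KI (fun x => DD k (psi m) x ^ 2) := by
    intro m n hmn
    have h3 : psi n = fun x => psi m (fun i => x (i + 1)) := by
      funext x
      exact hmn x
    rw [← Equiv.sum_comp (Equiv.addRight (1 : Fin 3))
      (fun k => KI (fun x => DD k (psi n) x ^ 2))]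
    apply Finset.sum_congr rfl
    intro k _
    rw [← hrot (fun x => DD k (psi m) x ^ 2) ((hDc k m).pow 2)]
    refine qf_congr fun x => ?_
    show DD (k + 1) (psi n) x ^ 2 = _
    rw [h3, qf_DD (hd m)]
  have hE1 := (hErot 0 1 hpsi1).trans hE0
  have hE2 := (hErot 1 2 hpsi2).trans hE1
  refine ⟨?_, ?_, ?_, ?_⟩
  · have h3 : (fun x => (∑ m, δ m * psi m x) ^ 2) = fun x =>
        (δ 0 ^ 2 - δ 0 * δ 1 - δ 0 * δ 2 + δ 1 * δ 2) * psi 0 x ^ 2 +
        (δ 1 ^ 2 - δ 0 * δ 1 - δ 1 * δ 2 + δ 0 * δ 2) * psi 1 x ^ 2 +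
        (δ 2 ^ 2 - δ 0 * δ 2 - δ 1 * δ 2 + δ 0 * δ 1) * psi 2 x ^ 2 := by
      funext x
      rw [Fin.sum_univ_three]
      have h4 : psi 2 x = - psi 0 x - psi 1 x := by linarith [hsum x]
      rw [h4]
      ring
    rw [h3, qf_lin3 (F := fun x => psi 0 x ^ 2) (G := fun x => psi 1 x ^ 2)
      (H := fun x => psi 2 x ^ 2) ((hc 0).pow 2) ((hc 1).pow 2) ((hc 2).pow 2), q0, q1, q2,
      Fin.sum_univ_three, hδ2]
    ring
  · have h3 : ∀ k, KI (fun x => DD k (fun y => ∑ m, δ m * psi m y) x ^ 2) =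
        (δ 0 ^ 2 - δ 0 * δ 1 - δ 0 * δ 2 + δ 1 * δ 2) * KI (fun x => DD k (psi 0) x ^ 2) +
        (δ 1 ^ 2 - δ 0 * δ 1 - δ 1 * δ 2 + δ 0 * δ 2) * KI (fun x => DD k (psi 1) x ^ 2) +
        (δ 2 ^ 2 - δ 0 * δ 2 - δ 1 * δ 2 + δ 0 * δ 1) * KI (fun x => DD k (psi 2) x ^ 2) := by
      intro k
      rw [← qf_lin3 (F := fun x => DD k (psi 0) x ^ 2) (G := fun x => DD k (psi 1) x ^ 2)
        (H := fun x => DD k (psi 2) x ^ 2) ((hDc k 0).pow 2) ((hDc k 1).pow 2) ((hDc k 2).pow 2)]
      congr 1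
      funext x
      rw [hDD]
      have h4 : DD k (psi 2) x = - DD k (psi 0) x - DD k (psi 1) x := by linarith [hDz k x]
      rw [h4]
      ring
    simp only [h3]
    rw [Finset.sum_add_distrib, Finset.sum_add_distrib, ← Finset.mul_sum, ← Finset.mul_sum,
      ← Finset.mul_sum, hE0, hE1, hE2, Fin.sum_univ_three, hδ2]
    ring
  · have hphr : ∀ x : Fin 3 → ℝ, phi0 (fun i => x (i + 1)) = phi0 x := by
      intro x
      unfold phi0
      show Real.sin (2 * π * x 1) + Real.sin (2 * π * x 2) + Real.sin (2 * π * x 0) = _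
      ring
    have t1 : KI (fun x => phi0 x * psi 1 x) = KI (fun x => phi0 x * psi 0 x) := by
      rw [← hrot (fun x => phi0 x * psi 0 x) (hphi.mul (hc 0))]
      exact qf_congr fun x => by rw [hphr, hpsi1]
    have t2 : KI (fun x => phi0 x * psi 2 x) = KI (fun x => phi0 x * psi 0 x) := by
      rw [← t1, ← hrot (fun x => phi0 x * psi 1 x) (hphi.mul (hc 1))]
      exact qf_congr fun x => by rw [hphr, hpsi2]
    have t0 : KI (fun x => phi0 x * psi 0 x) = 0 := by
      have h3 := qf_lin3 (F := fun x => phi0 x * psi 0 x) (G := fun x => phi0 x * psi 1 x)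
        (H := fun x => phi0 x * psi 2 x) (hphi.mul (hc 0)) (hphi.mul (hc 1)) (hphi.mul (hc 2)) 1 1 1
      have h4 : (fun x => 1 * (phi0 x * psi 0 x) + 1 * (phi0 x * psi 1 x) + 1 * (phi0 x * psi 2 x)) =
          fun _ => 0 := by
        funext x
        have := hsum x
        linear_combination phi0 x * this
      rw [h4, KI_zero, t1, t2] at h3
      linarith
    have h3 : (fun x => phi0 x * ∑ m, δ m * psi m x) = fun x =>
        δ 0 * (phi0 x * psi 0 x) + δ 1 * (phi0 x * psi 1 x) + δ 2 * (phi0 x * psi 2 x) := by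
      funext x
      rw [Fin.sum_univ_three]
      ring
    rw [h3, qf_lin3 (F := fun x => phi0 x * psi 0 x) (G := fun x => phi0 x * psi 1 x)
        (H := fun x => phi0 x * psi 2 x) (hphi.mul (hc 0)) (hphi.mul (hc 1)) (hphi.mul (hc 2)),
      t1, t2, t0]
    ring
  · obtain ⟨S, hS⟩ : ∃ S : Fin 3 → Fin 3 → ℝ, ∀ m k,
        S m k = KI (fun x => psi m x * Real.sin (2 * π * x k)) := ⟨_, fun _ _ => rfl⟩
    have hcS : ∀ m k, Continuous fun x : Fin 3 → ℝ => psi m x * Real.sin (2 * π * x k) := by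
      intro m k
      have := hc m
      fun_prop
    have hSr : ∀ m n : Fin 3, (∀ x, psi n x = psi m (fun i => x (i + 1))) → ∀ k,
        S n (k + 1) = S m k := by
      intro m n hmn k
      rw [hS, hS, ← hrot (fun x => psi m x * Real.sin (2 * π * x k)) (hcS m k)]
      exact qf_congr fun x => by rw [hmn]
    have r11 : S 1 1 = S 0 0 := hSr 0 1 hpsi1 0
    have r12 : S 1 2 = S 0 1 := hSr 0 1 hpsi1 1
    have r10 : S 1 0 = S 0 2 := hSr 0 1 hpsi1 2
    have r21 : S 2 1 = S 1 0 := hSr 1 2 hpsi2 0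
    have r22 : S 2 2 = S 1 1 := hSr 1 2 hpsi2 1
    have r20 : S 2 0 = S 1 2 := hSr 1 2 hpsi2 2
    have hz : S 0 0 + S 1 0 + S 2 0 = 0 := by
      have h3 := qf_lin3 (hcS 0 0) (hcS 1 0) (hcS 2 0) 1 1 1
      have h4 : (fun x : Fin 3 → ℝ => 1 * (psi 0 x * Real.sin (2 * π * x 0)) +
          1 * (psi 1 x * Real.sin (2 * π * x 0)) + 1 * (psi 2 x * Real.sin (2 * π * x 0))) =
          fun _ => 0 := by
        funext x
        have := hsum x
        linear_combination Real.sin (2 * π * x 0) * this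
      rw [h4, KI_zero, ← hS, ← hS, ← hS] at h3
      linarith
    have h3 : ∀ k, KI (fun x => (∑ m, δ m * psi m x) * Real.sin (2 * π * x k)) =
        δ 0 * S 0 k + δ 1 * S 1 k + δ 2 * S 2 k := by
      intro k
      rw [hS, hS, hS, ← qf_lin3 (hcS 0 k) (hcS 1 k) (hcS 2 k)]
      refine qf_congr fun x => ?_
      rw [Fin.sum_univ_three]
      ring
    have h4 : KI (fun x => psi0 x * Real.sin (2 * π * x 0)) = S 0 0 := by
      rw [hS]
      exact qf_congr fun x => by rw [qf_psi0]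
    rw [h4]
    simp only [h3]
    rw [Fin.sum_univ_three, Fin.sum_univ_three, r20, r22, r21, r12, r11, r10, hδ2]
    have h5 : S 0 0 = - S 0 2 - S 0 1 := by
      rw [r20, r12, r10] at hz
      linarith
    rw [h5]
    ring

end Pool.TRI.A
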